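import Pool.Agent.Helper2.TA.Na

/-! # Project TA, block N: existence of the structure -/

set_option autoImplicit false

open Polynomial

namespace Pool.Agent.Helper2.TA

/-! ### piece `TA-N2`: existence of the structure -/

private theorem N2_clear (β : ℂ) (p : ℚ[X]) : ∃ (c : ℤ) (P : ℤ[X]), c ≠ 0 ∧
    aeval β P = (c : ℂ) * aeval β p := by
  obtain ⟨c, hc⟩ := IsLocalization.integerNormalization_map_to_map (nonZeroDivisors ℤ) p
  refine ⟨c, IsLocalization.integerNormalization (nonZeroDivisors ℤ) p,
    nonZeroDivisors.ne_zero c.2, ?_⟩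
  rw [← aeval_map_algebraMap ℚ, hc, map_zsmul, zsmul_eq_mul]

private theorem N2_single {β : ℂ} (x : IntermediateField.adjoin ℚ {β}) :
    ∃ b P : ℤ[X], aeval β b ≠ 0 ∧ aeval β b * (x : ℂ) = aeval β P := by
  obtain ⟨r, s, hx⟩ := IntermediateField.mem_adjoin_simple_iff ℚ (x : ℂ) |>.mp x.2
  by_cases hs : aeval β s = 0
  · refine ⟨1, 0, by simp, ?_⟩
    rw [hx, hs]
    simp
  · obtain ⟨c, R, hc, hR⟩ := N2_clear β r
    obtain ⟨c', S, hc', hS⟩ := N2_clear β s
    have hcc : (c : ℂ) ≠ 0 := by exact_mod_cast hc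
    have hcc' : (c' : ℂ) ≠ 0 := by exact_mod_cast hc'
    refine ⟨C c * S, C c' * R, ?_, ?_⟩
    · rw [map_mul, aeval_C, hS]
      simp only [algebraMap_int_eq, eq_intCast]
      exact mul_ne_zero hcc (mul_ne_zero hcc' hs)
    · rw [map_mul, map_mul, aeval_C, aeval_C, hS, hR, hx]
      simp only [algebraMap_int_eq, eq_intCast]
      field_simp

/-- Elements of `ℚ(β)` have a common denominator in `ℤ[β]`.
Proof. Every element is `aeval β r / aeval β s`, `r s : ℚ[X]`, `s ≠ 0`
(`IntermediateField.mem_adjoin_simple_iff`); clear the denominators of `r` and `s`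
(`IsLocalization.integerNormalization` or multiply by the product of the denominators of the
coefficients); `aeval β s ≠ 0` as `β` is transcendental; take the product over the family. -/
theorem exists_denom {β : ℂ} (hβ : Transcendental ℚ β) {ι : Type*} [Fintype ι]
    (r : ι → IntermediateField.adjoin ℚ {β}) :
    ∃ (b : ℤ[X]) (P : ι → ℤ[X]), aeval β b ≠ 0 ∧
      ∀ i, aeval β b * (r i : ℂ) = aeval β (P i) := by
  classical
  choose b P hb hP using fun i => N2_single (r i)
  refine ⟨∏ i, b i, fun i => (∏ j ∈ Finset.univ.erase i, b j) * P i, ?_, fun i => ?_⟩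
  · rw [map_prod]
    exact Finset.prod_ne_zero_iff.mpr fun i _ => hb i
  · rw [← Finset.mul_prod_erase Finset.univ b (Finset.mem_univ i), map_mul, map_mul, ← hP i]
    ring

/-- Proof. `K = ℚ(β)`, `L = K(ϖ 0, …, ϖ 3)` is finite over `K`
(`IntermediateField.finiteDimensional_adjoin`). `e` = a basis (`Module.finBasis K L`), `r i j l` =
the coordinates of `ϖ i * e j ∈ L`, `exists_denom` for this family. `ind`: the `e l` are linearly
independent over `K`, so `aeval β (c l) = 0`, and `β` is transcendental over `ℤ`. `pos`: `L ≠ 0`. -/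
theorem exists_str {β : ℂ} (hβ : Transcendental ℚ β) {ϖ : Fin 4 → ℂ}
    (hϖ : ∀ i, IsAlgebraic (IntermediateField.adjoin ℚ {β}) (ϖ i)) :
    ∃ (d : ℕ) (e : Fin d → ℂ) (b : ℤ[X]) (M : Fin 4 → Matrix (Fin d) (Fin d) ℤ[X]),
      Str β ϖ d e b M := by
  classical
  have hfd : FiniteDimensional (IntermediateField.adjoin ℚ {β})
      (IntermediateField.adjoin (IntermediateField.adjoin ℚ {β}) (Set.range ϖ)) := by
    apply IntermediateField.finiteDimensional_adjoin
    rintro _ ⟨i, rfl⟩
    exact (hϖ i).isIntegral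
  let bas := Module.finBasis (IntermediateField.adjoin ℚ {β})
    (IntermediateField.adjoin (IntermediateField.adjoin ℚ {β}) (Set.range ϖ))
  let om : Fin 4 → IntermediateField.adjoin (IntermediateField.adjoin ℚ {β}) (Set.range ϖ) :=
    fun i => ⟨ϖ i, IntermediateField.subset_adjoin _ _ ⟨i, rfl⟩⟩
  let d := Module.finrank (IntermediateField.adjoin ℚ {β})
    (IntermediateField.adjoin (IntermediateField.adjoin ℚ {β}) (Set.range ϖ))
  obtain ⟨b, P, hb, hP⟩ := exists_denom hβ
    (fun q : Fin 4 × Fin d × Fin d => bas.repr (om q.1 * bas q.2.1) q.2.2)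
  refine ⟨d, fun l => (bas l : ℂ), b, fun i j l => P (i, j, l), ?_, hb, ?_, ?_⟩
  · exact Module.finrank_pos
  · intro i j
    have h1 := bas.sum_repr (om i * bas j)
    have h2 := congrArg (fun x : IntermediateField.adjoin (IntermediateField.adjoin ℚ {β})
      (Set.range ϖ) => (x : ℂ)) h1
    simp only [IntermediateField.coe_sum, IntermediateField.coe_smul,
      IntermediateField.coe_mul] at h2
    have h3 : ϖ i * (bas j : ℂ) =
        ∑ l, ((bas.repr (om i * bas j) l : IntermediateField.adjoin ℚ {β}) : ℂ) * (bas l : ℂ) := by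
      rw [show ϖ i * (bas j : ℂ) = (om i : ℂ) * (bas j : ℂ) from rfl, ← h2]
      exact Finset.sum_congr rfl fun l _ => rfl
    rw [mul_assoc, h3, Finset.mul_sum]
    refine Finset.sum_congr rfl fun l _ => ?_
    rw [← mul_assoc]
    congr 1
    exact hP (i, j, l)
  · intro c hc l
    let k : Fin d → IntermediateField.adjoin ℚ {β} := fun l =>
      aeval (⟨β, IntermediateField.mem_adjoin_simple_self ℚ β⟩ :
        IntermediateField.adjoin ℚ {β}) (c l)
    have hk : ∀ l, (k l : ℂ) = aeval β (c l) := by
      intro l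
      exact (aeval_algebraMap_apply ℂ (⟨β, IntermediateField.mem_adjoin_simple_self ℚ β⟩ :
        IntermediateField.adjoin ℚ {β}) (c l)).symm
    have h1 : ∑ l, k l • bas l = 0 := by
      apply Subtype.ext
      rw [IntermediateField.coe_sum, ZeroMemClass.coe_zero, ← hc]
      refine Finset.sum_congr rfl fun l _ => ?_
      rw [← hk l]
      rfl
    have h2 := Fintype.linearIndependent_iff.mp bas.linearIndependent k h1 l
    have h3 : aeval β (c l) = 0 := by
      rw [← hk l, h2]
      rfl
    have h4 : aeval β ((c l).map (algebraMap ℤ ℚ)) = 0 := by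
      rw [aeval_map_algebraMap, h3]
    have h5 := (transcendental_iff.mp hβ) _ h4
    exact (Polynomial.map_eq_zero_iff (RingHom.injective_int (algebraMap ℤ ℚ))).mp h5

end Pool.Agent.Helper2.TA
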