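import Pool.Agent.Helper2.TA.Na

/-! # Project TA, block N: values of polynomials in `ϖ` -/

set_option autoImplicit false

open Polynomial

namespace Pool.Agent.Helper2.TA

open Pool.Agent.Helper49.TA (ln)

variable {β : ℂ} {ϖ : Fin 4 → ℂ} {d : ℕ} {e : Fin d → ℂ} {b : ℤ[X]}
  {M : Fin 4 → Matrix (Fin d) (Fin d) ℤ[X]}

/-- `x` is represented in level `D` with the bound `Λ`. -/
def Rp (β : ℂ) {d : ℕ} (e : Fin d → ℂ) (b : ℤ[X]) (B : ℕ) (D : ℕ) (Λ : ℝ) (x : ℂ)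
    (A : Matrix (Fin d) (Fin d) ℤ[X]) : Prop :=
  (∀ j, aeval β b ^ D * x * e j = ∑ l, aeval β (A j l) * e l) ∧
    ∀ j l, (A j l).natDegree ≤ B * D ∧ l1 (A j l) ≤ Λ * B ^ D

/-! ### piece `TA-N3` -/

theorem Rp.one (B : ℕ) : Rp β e b B 0 1 1 1 := by
  refine ⟨fun j => ?_, fun j l => ?_⟩
  · have h1 : ∀ l, aeval β ((1 : Matrix (Fin d) (Fin d) ℤ[X]) j l) * e l =
        if l = j then e j else 0 := by
      intro l
      by_cases h : l = j
      · subst h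
        simp
      · have h' : j ≠ l := fun h'' => h h''.symm
        simp [Matrix.one_apply_ne h', h]
    simp [h1]
  · have h0 : l1 0 = 0 := by
      have := l1_C 0
      simpa using this
    have h1 : l1 1 = 1 := by
      have := l1_C 1
      simpa using this
    by_cases h : j = l
    · subst h
      simp [h1]
    · simp [Matrix.one_apply_ne h, h0]

theorem Rp.smul {B D : ℕ} {Λ : ℝ} {x : ℂ} {A : Matrix (Fin d) (Fin d) ℤ[X]}
    (h : Rp β e b B D Λ x A) (c : ℤ) : Rp β e b B D (|(c : ℝ)| * Λ) (c * x) (c • A) := by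
  have h0 : ∀ j l, (c • A) j l = C c * A j l := by
    intro j l
    simp
  refine ⟨fun j => ?_, fun j l => ⟨?_, ?_⟩⟩
  · have h1 : ∀ l, aeval β ((c • A) j l) * e l = (c : ℂ) * (aeval β (A j l) * e l) := by
      intro l
      rw [h0, map_mul]
      simp
      ring
    simp only [h1, ← Finset.mul_sum, ← h.1 j]
    ring
  · rw [h0]
    exact (natDegree_C_mul_le _ _).trans (h.2 j l).1
  · rw [h0, mul_assoc]
    refine (l1_mul _ _).trans ?_
    rw [l1_C]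
    exact mul_le_mul_of_nonneg_left (h.2 j l).2 (abs_nonneg _)

theorem Rp.sum {ι : Type*} (s : Finset ι) {B D : ℕ} {Λ : ι → ℝ} {x : ι → ℂ}
    {A : ι → Matrix (Fin d) (Fin d) ℤ[X]} (h : ∀ i ∈ s, Rp β e b B D (Λ i) (x i) (A i)) :
    Rp β e b B D (∑ i ∈ s, Λ i) (∑ i ∈ s, x i) (∑ i ∈ s, A i) := by
  refine ⟨fun j => ?_, fun j l => ⟨?_, ?_⟩⟩
  · simp only [Matrix.sum_apply, map_sum, Finset.sum_mul, Finset.mul_sum]
    rw [Finset.sum_comm]
    exact Finset.sum_congr rfl fun i hi => (h i hi).1 j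
  · rw [Matrix.sum_apply]
    exact natDegree_sum_le_of_forall_le _ _ fun i hi => ((h i hi).2 j l).1
  · rw [Matrix.sum_apply, Finset.sum_mul]
    exact (l1_sum _ _).trans (Finset.sum_le_sum fun i hi => ((h i hi).2 j l).2)

/-- multiplication by `b` (`natDegree b ≤ B`, `l1 b ≤ B`) -/
theorem Rp.up {B D : ℕ} {Λ : ℝ} {x : ℂ} {A : Matrix (Fin d) (Fin d) ℤ[X]}
    (h : Rp β e b B D Λ x A) (hΛ : 0 ≤ Λ) (hb : b.natDegree ≤ B) (hb' : l1 b ≤ B) :
    Rp β e b B (D + 1) Λ x (b • A) := by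
  have h0 : ∀ j l, (b • A) j l = b * A j l := by
    intro j l
    simp
  refine ⟨fun j => ?_, fun j l => ⟨?_, ?_⟩⟩
  · have h1 : ∀ l, aeval β ((b • A) j l) * e l = aeval β b * (aeval β (A j l) * e l) := by
      intro l
      rw [h0, map_mul, mul_assoc]
    simp only [h1, ← Finset.mul_sum, ← h.1 j, pow_succ]
    ring
  · rw [h0]
    refine natDegree_mul_le.trans ?_
    have := (h.2 j l).1
    rw [Nat.mul_succ]
    omega
  · rw [h0]
    refine (l1_mul _ _).trans ?_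
    have h1 : l1 b * l1 (A j l) ≤ B * (Λ * B ^ D) :=
      mul_le_mul hb' (h.2 j l).2 (l1_nonneg _) (Nat.cast_nonneg _)
    refine h1.trans (le_of_eq ?_)
    rw [pow_succ]
    ring

/-- multiplication by `ϖ i`: `b^(D+1) ϖ i x e_j = ∑ l, M i j l (b^D x e_l) = ∑ l, (M i * A) j l e_l`;
the bound: `d * B' ≤ B` where `B'` bounds `l1 (M i j l)` -/
theorem Rp.mul (hs : Str β ϖ d e b M) {B B' D : ℕ} {Λ : ℝ} {x : ℂ}
    {A : Matrix (Fin d) (Fin d) ℤ[X]} (h : Rp β e b B D Λ x A) (hΛ : 0 ≤ Λ)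
    (hM : ∀ i j l, (M i j l).natDegree ≤ B ∧ l1 (M i j l) ≤ B') (hB : d * B' ≤ B) (i : Fin 4) :
    Rp β e b B (D + 1) Λ (ϖ i * x) (M i * A) := by
  refine ⟨fun j => ?_, fun j l => ⟨?_, ?_⟩⟩
  · have h1 : aeval β b ^ (D + 1) * (ϖ i * x) * e j =
        ∑ k, aeval β (M i j k) * (aeval β b ^ D * x * e k) := by
      have h2 : aeval β b ^ (D + 1) * (ϖ i * x) * e j =
          (aeval β b ^ D * x) * (aeval β b * ϖ i * e j) := by
        rw [pow_succ]
        ring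
      rw [h2, hs.mul, Finset.mul_sum]
      refine Finset.sum_congr rfl fun k _ => ?_
      ring
    rw [h1]
    simp only [h.1, Matrix.mul_apply, map_sum, map_mul, Finset.mul_sum, Finset.sum_mul]
    rw [Finset.sum_comm]
    refine Finset.sum_congr rfl fun l _ => Finset.sum_congr rfl fun k _ => ?_
    ring
  · rw [Matrix.mul_apply]
    refine natDegree_sum_le_of_forall_le _ _ fun k _ => ?_
    refine natDegree_mul_le.trans ?_
    have h1 := (hM i j k).1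
    have h2 := (h.2 k l).1
    rw [Nat.mul_succ]
    omega
  · rw [Matrix.mul_apply]
    refine (l1_sum _ _).trans ?_
    have h1 : ∀ k ∈ (Finset.univ : Finset (Fin d)), l1 (M i j k * A k l) ≤ B' * (Λ * B ^ D) := by
      intro k _
      exact (l1_mul _ _).trans
        (mul_le_mul (hM i j k).2 (h.2 k l).2 (l1_nonneg _) (Nat.cast_nonneg _))
    refine (Finset.sum_le_sum h1).trans ?_
    rw [Finset.sum_const, Finset.card_univ, Fintype.card_fin, nsmul_eq_mul]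
    have h2 : (d : ℝ) * B' ≤ B := by exact_mod_cast hB
    have h3 : (0 : ℝ) ≤ Λ * B ^ D := mul_nonneg hΛ (by positivity)
    calc (d : ℝ) * (B' * (Λ * B ^ D)) = (d * B') * (Λ * B ^ D) := by ring
      _ ≤ B * (Λ * B ^ D) := mul_le_mul_of_nonneg_right h2 h3
      _ = Λ * B ^ (D + 1) := by rw [pow_succ]; ring

private theorem Rp_mul_pow (hs : Str β ϖ d e b M) {B B' : ℕ}
    (hM : ∀ i j l, (M i j l).natDegree ≤ B ∧ l1 (M i j l) ≤ B') (hB : d * B' ≤ B) (i : Fin 4)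
    (k : ℕ) {D : ℕ} {x : ℂ} (h : ∃ A, Rp β e b B D 1 x A) :
    ∃ A, Rp β e b B (D + k) 1 (ϖ i ^ k * x) A := by
  induction k with
  | zero => simpa using h
  | succ k ih =>
    obtain ⟨A, hA⟩ := ih
    refine ⟨M i * A, ?_⟩
    have h1 := Rp.mul hs hA zero_le_one hM hB i
    rw [← mul_assoc, ← pow_succ'] at h1
    exact h1

private theorem Rp_up_pow {B : ℕ} (hb : b.natDegree ≤ B) (hb' : l1 b ≤ B)
    (k : ℕ) {D : ℕ} {x : ℂ} (h : ∃ A, Rp β e b B D 1 x A) :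
    ∃ A, Rp β e b B (D + k) 1 x A := by
  induction k with
  | zero => simpa using h
  | succ k ih =>
    obtain ⟨A, hA⟩ := ih
    exact ⟨b • A, hA.up zero_le_one hb hb'⟩

/-- Proof. `B` = a common bound (`1 ≤ B`). For a monomial `m` of degree `n`: `Rp n 1 (∏ ϖ i ^ m i)`
by `Rp.one` and `Rp.mul`, then `Rp.up` `D - n` times, `Rp.smul`, and `Rp.sum` over the support of `a`;
`∑ |coeff| = ln a`. -/
theorem exists_rep (hs : Str β ϖ d e b M) : ∃ B : ℕ, 1 ≤ B ∧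
    ∀ (D : ℕ) (a : MvPolynomial (Fin 4) ℤ), a.totalDegree ≤ D →
      ∃ A, Rp β e b B D (ln a) (MvPolynomial.aeval ϖ a) A := by
  obtain ⟨B', hB'⟩ : ∃ B' : ℕ, B' = ∑ t : Fin 4 × Fin d × Fin d, ⌈l1 (M t.1 t.2.1 t.2.2)⌉₊ :=
    ⟨_, rfl⟩
  obtain ⟨N, hN⟩ : ∃ N : ℕ, N = ∑ t : Fin 4 × Fin d × Fin d, (M t.1 t.2.1 t.2.2).natDegree :=
    ⟨_, rfl⟩
  have hM' : ∀ i j l, l1 (M i j l) ≤ B' := by
    intro i j l
    refine (Nat.le_ceil _).trans ?_
    rw [hB']
    exact_mod_cast Finset.single_le_sum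
      (f := fun t : Fin 4 × Fin d × Fin d => ⌈l1 (M t.1 t.2.1 t.2.2)⌉₊)
      (fun _ _ => Nat.zero_le _) (Finset.mem_univ (i, j, l))
  have hN' : ∀ i j l, (M i j l).natDegree ≤ N := by
    intro i j l
    rw [hN]
    exact Finset.single_le_sum
      (f := fun t : Fin 4 × Fin d × Fin d => (M t.1 t.2.1 t.2.2).natDegree)
      (fun _ _ => Nat.zero_le _) (Finset.mem_univ (i, j, l))
  obtain ⟨B, hB⟩ : ∃ B : ℕ, B = 1 + b.natDegree + ⌈l1 b⌉₊ + N + d * B' := ⟨_, rfl⟩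
  have hM : ∀ i j l, (M i j l).natDegree ≤ B ∧ l1 (M i j l) ≤ B' := fun i j l =>
    ⟨(hN' i j l).trans (by omega), hM' i j l⟩
  have hdB : d * B' ≤ B := by omega
  have hb : b.natDegree ≤ B := by omega
  have hb' : l1 b ≤ B := by
    refine (Nat.le_ceil _).trans ?_
    have : ⌈l1 b⌉₊ ≤ B := by omega
    exact_mod_cast this
  refine ⟨B, by omega, fun D a ha => ?_⟩
  have hm : ∀ m ∈ a.support, ∃ A, Rp β e b B D 1 (∏ i, ϖ i ^ m i) A := by
    intro m hm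
    have h1 := MvPolynomial.le_totalDegree hm
    rw [Finsupp.sum_fintype _ _ (fun _ => rfl), Fin.sum_univ_four] at h1
    have h2 := Rp_mul_pow hs hM hdB 0 (m 0) (Rp_mul_pow hs hM hdB 1 (m 1)
      (Rp_mul_pow hs hM hdB 2 (m 2) (Rp_mul_pow hs hM hdB 3 (m 3) ⟨_, Rp.one (β := β) (e := e)
        (b := b) B⟩)))
    have h3 := Rp_up_pow hb hb' (D - (m 0 + m 1 + m 2 + m 3)) h2
    have h4 : 0 + m 3 + m 2 + m 1 + m 0 + (D - (m 0 + m 1 + m 2 + m 3)) = D := by omega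
    rw [h4] at h3
    have h5 : ϖ 0 ^ m 0 * (ϖ 1 ^ m 1 * (ϖ 2 ^ m 2 * (ϖ 3 ^ m 3 * 1))) = ∏ i, ϖ i ^ m i := by
      rw [Fin.prod_univ_four]
      ring
    rwa [h5] at h3
  choose! A hA using hm
  refine ⟨∑ m ∈ a.support, MvPolynomial.coeff m a • A m, ?_⟩
  have h1 := Rp.sum a.support (fun m hm => (hA m hm).smul (MvPolynomial.coeff m a))
  have h2 : MvPolynomial.aeval ϖ a =
      ∑ m ∈ a.support, ((MvPolynomial.coeff m a : ℤ) : ℂ) * ∏ i, ϖ i ^ m i := by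
    rw [MvPolynomial.aeval_def, MvPolynomial.eval₂_eq']
    rfl
  rw [h2]
  unfold ln
  simpa using h1

end Pool.Agent.Helper2.TA
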