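import Pool.Agent.Helper2.TA.Na

/-! # Project TA, block N: Siegel lemma for polynomials -/

set_option autoImplicit false

open Polynomial

namespace Pool.Agent.Helper2.TA

attribute [local instance] Matrix.seminormedAddCommGroup

/-- the polynomial with given coefficients -/
private noncomputable def n4p {N n : ℕ} (t : Fin N × Fin (n + 1) → ℤ) (i : Fin N) : ℤ[X] :=
  ∑ k : Fin (n + 1), C (t (i, k)) * X ^ (k : ℕ)

private theorem n4_coeff {N n : ℕ} (t : Fin N × Fin (n + 1) → ℤ) (i : Fin N) (j : ℕ) :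
    (n4p t i).coeff j = if h : j < n + 1 then t (i, ⟨j, h⟩) else 0 := by
  unfold n4p
  rw [finsetSum_coeff]
  split_ifs with h
  · rw [Finset.sum_eq_single ⟨j, h⟩]
    · simp
    · intro k _ hk
      rw [coeff_C_mul_X_pow, if_neg]
      intro h1
      exact hk (Fin.ext h1.symm)
    · intro h1
      exact absurd (Finset.mem_univ _) h1
  · refine Finset.sum_eq_zero fun k _ => ?_
    rw [coeff_C_mul_X_pow, if_neg]
    intro h1
    exact h (h1 ▸ k.2)

private theorem n4_deg {N n : ℕ} (t : Fin N × Fin (n + 1) → ℤ) (i : Fin N) :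
    (n4p t i).natDegree ≤ n := by
  refine natDegree_le_iff_coeff_eq_zero.2 fun j hj => ?_
  rw [n4_coeff, dif_neg (by omega)]

/-- the matrix of the system -/
private noncomputable def n4A {M N n : ℕ} (c : Fin M → Fin N → ℤ[X]) :
    Matrix (Fin M × Fin (2 * n + 1)) (Fin N × Fin (n + 1)) ℤ :=
  fun x y => if (y.2 : ℕ) ≤ (x.2 : ℕ) then (c x.1 y.1).coeff (x.2 - y.2) else 0

private theorem n4_mul {M N n : ℕ} (c : Fin M → Fin N → ℤ[X]) (t : Fin N × Fin (n + 1) → ℤ)
    (m : Fin M) (j : Fin (2 * n + 1)) :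
    (∑ i, n4p t i * c m i).coeff j = (n4A (n := n) c).mulVec t (m, j) := by
  rw [finsetSum_coeff]
  unfold Matrix.mulVec dotProduct
  rw [Fintype.sum_prod_type]
  refine Finset.sum_congr rfl fun i _ => ?_
  unfold n4p n4A
  rw [Finset.sum_mul, finsetSum_coeff]
  refine Finset.sum_congr rfl fun k _ => ?_
  rw [mul_assoc, coeff_C_mul, coeff_X_pow_mul']
  ring

/-- piece `TA-N4`: Siegel's lemma over `ℤ[X]`.
Proof. Unknowns: the `N (n + 1)` coefficients of the `p i` (degree `≤ n`); equations: the coefficients of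
`X^0, …, X^(2 n)` of `∑ i, p i * c m i`: `M (2 n + 1) ≤ 2 M (n + 1)` equations, at most half the number
of the unknowns. The matrix has the entries `(c m i).coeff (j - k)` (`0` for `k > j`), so its norm is
`≤ H`. `Int.Matrix.exists_ne_zero_int_vec_norm_le'` (Mathlib/NumberTheory/SiegelsLemma.lean): exponent
`M' / (N' - M') ≤ 1`, so the solution is bounded by `N' * max 1 H`. (If `M = 0` take `p = 1`.) -/
theorem siegel_poly {M N n : ℕ} (hN : 1 ≤ N) (hMN : 4 * M ≤ N) {H : ℝ} (hH : 1 ≤ H)
    (c : Fin M → Fin N → ℤ[X]) (hc : ∀ m i, (c m i).natDegree ≤ n)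
    (hc' : ∀ m i j, |((c m i).coeff j : ℝ)| ≤ H) :
    ∃ p : Fin N → ℤ[X], p ≠ 0 ∧ (∀ i, (p i).natDegree ≤ n) ∧
      (∀ i j, |((p i).coeff j : ℝ)| ≤ N * (n + 1) * H) ∧ ∀ m, ∑ i, p i * c m i = 0 := by
  have hN1 : (1 : ℝ) ≤ N := by exact_mod_cast hN
  have hn1 : (1 : ℝ) ≤ (n : ℝ) + 1 := by
    have : (0 : ℝ) ≤ n := Nat.cast_nonneg n
    linarith
  have hbig : (1 : ℝ) ≤ N * (n + 1) := one_le_mul_of_one_le_of_one_le hN1 hn1
  have hbig2 : (1 : ℝ) ≤ N * (n + 1) * H := one_le_mul_of_one_le_of_one_le hbig hH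
  rcases Nat.eq_zero_or_pos M with hM | hM
  · subst hM
    refine ⟨fun _ => 1, ?_, fun i => by simp, fun i j => ?_, fun m => m.elim0⟩
    · intro h
      exact one_ne_zero (congrFun h ⟨0, hN⟩)
    · rw [coeff_one]
      split_ifs
      · simpa using hbig2
      · simpa using zero_le_one.trans hbig2
  · have hcα : Fintype.card (Fin M × Fin (2 * n + 1)) = M * (2 * n + 1) := by
      rw [Fintype.card_prod, Fintype.card_fin, Fintype.card_fin]
    have hcβ : Fintype.card (Fin N × Fin (n + 1)) = N * (n + 1) := by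
      rw [Fintype.card_prod, Fintype.card_fin, Fintype.card_fin]
    have h2 : 2 * (M * (2 * n + 1)) ≤ N * (n + 1) := by nlinarith
    have h0 : 0 < M * (2 * n + 1) := Nat.mul_pos hM (by omega)
    obtain ⟨t, ht0, htA, htn⟩ := Int.Matrix.exists_ne_zero_int_vec_norm_le (n4A (n := n) c)
      (by rw [hcα, hcβ]; omega) (by rw [hcα]; exact h0)
    rw [hcα, hcβ] at htn
    have hA : ‖n4A (n := n) c‖ ≤ H := by
      rw [Matrix.norm_le_iff (zero_le_one.trans hH)]
      intro x y
      unfold n4A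
      split_ifs
      · rw [Int.norm_eq_abs]
        exact hc' _ _ _
      · rw [norm_zero]
        exact zero_le_one.trans hH
    have hmax : max 1 ‖n4A (n := n) c‖ ≤ H := max_le hH hA
    have hbase : (1 : ℝ) ≤ ((N * (n + 1) : ℕ) : ℝ) * max 1 ‖n4A (n := n) c‖ := by
      have h5 : (1 : ℝ) ≤ ((N * (n + 1) : ℕ) : ℝ) := by
        push_cast
        exact hbig
      exact one_le_mul_of_one_le_of_one_le h5 (le_max_left _ _)
    have hexp : ((M * (2 * n + 1) : ℕ) : ℝ)
        / (((N * (n + 1) : ℕ) : ℝ) - ((M * (2 * n + 1) : ℕ) : ℝ)) ≤ 1 := by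
      have h6 : (2 : ℝ) * ((M * (2 * n + 1) : ℕ) : ℝ) ≤ ((N * (n + 1) : ℕ) : ℝ) := by
        exact_mod_cast h2
      have h7 : (0 : ℝ) < ((M * (2 * n + 1) : ℕ) : ℝ) := by exact_mod_cast h0
      rw [div_le_one (by linarith)]
      linarith
    have htn2 : ‖t‖ ≤ N * (n + 1) * H := by
      refine htn.trans ((Real.rpow_le_rpow_of_exponent_le hbase hexp).trans ?_)
      rw [Real.rpow_one]
      push_cast
      exact mul_le_mul_of_nonneg_left hmax (zero_le_one.trans hbig)
    refine ⟨n4p t, ?_, n4_deg t, ?_, ?_⟩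
    · intro h
      refine ht0 (funext fun y => ?_)
      have h8 := congrArg (fun q => q.coeff (y.2 : ℕ)) (congrFun h y.1)
      simp only [n4_coeff, Pi.zero_apply, coeff_zero, y.2.2, dite_true] at h8
      exact h8
    · intro i j
      rw [n4_coeff]
      split_ifs with h9
      · refine le_trans ?_ htn2
        rw [← Int.norm_eq_abs]
        exact norm_le_pi_norm t _
      · simpa using zero_le_one.trans hbig2
    · intro m
      ext j
      rw [coeff_zero]
      by_cases hj : j < 2 * n + 1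
      · have h10 := n4_mul c t m ⟨j, hj⟩
        rw [htA] at h10
        exact h10
      · rw [finsetSum_coeff]
        refine Finset.sum_eq_zero fun i _ => coeff_eq_zero_of_natDegree_lt ?_
        have h11 := natDegree_mul_le (p := n4p t i) (q := c m i)
        have h12 := n4_deg t i
        have h13 := hc m i
        omega

end Pool.Agent.Helper2.TA
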