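import Pool.Agent.Helper2.TA.N2
import Pool.Agent.Helper2.TA.N3
import Pool.Agent.Helper2.TA.N4

/-! # Project TA, block N: the lemma of Siegel -/

set_option autoImplicit false

open Polynomial

namespace Pool.Agent.Helper2.TA

open Pool.Agent.Helper49.TA (ln)

private theorem N5_e_ne {β : ℂ} {ϖ : Fin 4 → ℂ} {d : ℕ} {e : Fin d → ℂ} {b : ℤ[X]}
    {M : Fin 4 → Matrix (Fin d) (Fin d) ℤ[X]} (hs : Str β ϖ d e b M) (j : Fin d) : e j ≠ 0 := by
  classical
  intro h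
  have h1 := hs.ind (Pi.single j 1) (by
    rw [Finset.sum_eq_single j]
    · rw [h, mul_zero]
    · intro l _ hl
      rw [Pi.single_eq_of_ne hl, map_zero, zero_mul]
    · intro hj
      exact absurd (Finset.mem_univ j) hj) j
  rw [Pi.single_eq_same] at h1
  exact one_ne_zero h1

private theorem N5_bound {N B D : ℕ} {S : ℝ} (hN : 1 ≤ N) (hlog : Real.log N ≤ S)
    (hB : 1 ≤ B) (hD : (D : ℝ) ≤ 2 * S) (hS : 1 ≤ S) :
    (N : ℝ) * (((B * D : ℕ) : ℝ) + 1) * (Real.exp S * (B : ℝ) ^ D) ≤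
      Real.exp ((4 * B + 2) * S) := by
  have hN0 : (0 : ℝ) < N := by exact_mod_cast hN
  have hB0 : (0 : ℝ) ≤ B := Nat.cast_nonneg _
  have h1 : (N : ℝ) ≤ Real.exp S := by
    rw [← Real.log_le_iff_le_exp hN0]
    exact hlog
  have h2 : ((B * D : ℕ) : ℝ) + 1 ≤ Real.exp (B * D) := by
    push_cast
    exact Real.add_one_le_exp _
  have h3 : (B : ℝ) ^ D ≤ Real.exp (B * D) := by
    have h4 : (B : ℝ) ≤ Real.exp B := by
      have := Real.add_one_le_exp (B : ℝ)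
      linarith
    calc (B : ℝ) ^ D ≤ Real.exp B ^ D := pow_le_pow_left₀ hB0 h4 _
      _ = Real.exp (B * D) := by rw [← Real.exp_nat_mul]; congr 1; ring
  have h5 : Real.exp S * Real.exp (B * D) * (Real.exp S * Real.exp (B * D)) ≤
      Real.exp ((4 * B + 2) * S) := by
    rw [← Real.exp_add, ← Real.exp_add, Real.exp_le_exp]
    nlinarith
  refine le_trans ?_ h5
  have h6 : (0 : ℝ) ≤ ((B * D : ℕ) : ℝ) + 1 := by positivity
  gcongr

/-- piece `TA-N5`.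
Proof. `Str` (`exists_str`), `B` from `exists_rep`, `D = ⌈S⌉₊ ≤ 2 S`. `A m i` = the matrix of `a m i` in
level `D`. `j₀ = ⟨0, hs.pos⟩`. Equations: `∑ i, p i * A m i j₀ l = 0` for all `m`, `l` (there are `M d`):
`siegel_poly` with `n = B * D`, `H = exp S * B ^ D` (`l1_coeff`, `ln a ≤ exp S`), if `C ≥ 4 d`. Then
`aeval β b ^ D * (∑ i, aeval β (p i) * aeval ϖ (a m i)) * e j₀ = ∑ l, (∑ i, p i * A m i j₀ l)(β) e l = 0`, and
`aeval β b ≠ 0`, `e j₀ ≠ 0` (`hs.ind` with `c = Pi.single j₀ 1`). Bounds: `natDegree ≤ B D ≤ 2 B S`;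
`N (B D + 1) exp S B ^ D ≤ exp (C S)` as `N ≤ exp S`, `B D + 1 ≤ exp (B D) ≤ exp (2 B S)`,
`B ^ D ≤ exp (B D)`. (Use `Fin (M * d)` or generalise `siegel_poly` to `Fintype` indices.) -/
theorem N_siegel {β : ℂ} (hβ : Transcendental ℚ β) {ϖ : Fin 4 → ℂ}
    (hϖ : ∀ i, IsAlgebraic (IntermediateField.adjoin ℚ {β}) (ϖ i)) : ∃ C : ℝ, 1 ≤ C ∧
    ∀ (M N : ℕ) (S : ℝ) (a : Fin M → Fin N → MvPolynomial (Fin 4) ℤ), 1 ≤ N → C * M ≤ N →
      1 ≤ S → Real.log N ≤ S → (∀ m i, ((a m i).totalDegree : ℝ) ≤ S) →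
      (∀ m i, ln (a m i) ≤ Real.exp S) →
      ∃ p : Fin N → ℤ[X], p ≠ 0 ∧ (∀ i, ((p i).natDegree : ℝ) ≤ C * S) ∧
        (∀ i j, |((p i).coeff j : ℝ)| ≤ Real.exp (C * S)) ∧
        ∀ m, ∑ i, aeval β (p i) * MvPolynomial.aeval ϖ (a m i) = 0 := by
  obtain ⟨d, e, b, Mx, hs⟩ := exists_str hβ hϖ
  obtain ⟨B, hB1, hrep⟩ := exists_rep hs
  have hd1 : (0 : ℝ) ≤ d := Nat.cast_nonneg _
  have hB0 : (1 : ℝ) ≤ B := by exact_mod_cast hB1
  refine ⟨4 * d + (4 * B + 2), by linarith, ?_⟩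
  intro M N S a hN hMN hS hlog hdeg hln
  obtain ⟨D, hD⟩ : ∃ D : ℕ, D = ⌈S⌉₊ := ⟨_, rfl⟩
  have hSD : S ≤ D := by rw [hD]; exact Nat.le_ceil S
  have hDS : (D : ℝ) ≤ 2 * S := by
    have h1 := Nat.ceil_lt_add_one (by linarith : 0 ≤ S)
    rw [← hD] at h1
    linarith
  have hdeg' : ∀ m i, (a m i).totalDegree ≤ D := by
    intro m i
    have h1 := hdeg m i
    exact_mod_cast h1.trans hSD
  choose A hA using fun m i => hrep D (a m i) (hdeg' m i)
  have hMd : 4 * (M * d) ≤ N := by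
    have h1 : (0 : ℝ) ≤ M := Nat.cast_nonneg _
    have h2 : (4 * ((M : ℝ) * d)) ≤ N := by nlinarith
    exact_mod_cast h2
  have hH : (1 : ℝ) ≤ Real.exp S * (B : ℝ) ^ D := by
    have h1 : (1 : ℝ) ≤ Real.exp S := Real.one_le_exp (by linarith)
    have h2 : (1 : ℝ) ≤ (B : ℝ) ^ D := one_le_pow₀ hB0
    nlinarith
  obtain ⟨p, hp0, hpd, hpc, hpe⟩ := siegel_poly (M := M * d) (N := N) (n := B * D) hN hMd hH
    (fun k i => A (finProdFinEquiv.symm k).1 i ⟨0, hs.pos⟩ (finProdFinEquiv.symm k).2)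
    (fun k i => ((hA _ i).2 _ _).1)
    (fun k i j => (l1_coeff _ j).trans (((hA _ i).2 _ _).2.trans
      (mul_le_mul_of_nonneg_right (hln _ _) (by positivity))))
  refine ⟨p, hp0, fun i => ?_, fun i j => ?_, fun m => ?_⟩
  · have h1 : ((p i).natDegree : ℝ) ≤ ((B * D : ℕ) : ℝ) := by exact_mod_cast hpd i
    push_cast at h1
    nlinarith
  · refine (hpc i j).trans ((N5_bound hN hlog hB1 hDS hS).trans ?_)
    rw [Real.exp_le_exp]
    nlinarith
  · have hl : ∀ l : Fin d, ∑ i, p i * A m i ⟨0, hs.pos⟩ l = 0 := by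
      intro l
      have h1 := hpe (finProdFinEquiv (m, l))
      simpa using h1
    have h2 : aeval β b ^ D * (∑ i, aeval β (p i) * MvPolynomial.aeval ϖ (a m i)) *
        e ⟨0, hs.pos⟩ = 0 := by
      have h3 : aeval β b ^ D * (∑ i, aeval β (p i) * MvPolynomial.aeval ϖ (a m i)) *
          e ⟨0, hs.pos⟩ = ∑ i, aeval β (p i) *
            (aeval β b ^ D * MvPolynomial.aeval ϖ (a m i) * e ⟨0, hs.pos⟩) := by
        rw [Finset.mul_sum, Finset.sum_mul]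
        refine Finset.sum_congr rfl fun i _ => ?_
        ring
      have h4 : ∀ i, aeval β (p i) *
            (aeval β b ^ D * MvPolynomial.aeval ϖ (a m i) * e ⟨0, hs.pos⟩) =
          ∑ l, aeval β (p i * A m i ⟨0, hs.pos⟩ l) * e l := by
        intro i
        rw [(hA m i).1 ⟨0, hs.pos⟩, Finset.mul_sum]
        refine Finset.sum_congr rfl fun l _ => ?_
        rw [map_mul]
        ring
      rw [h3, Finset.sum_congr rfl fun i _ => h4 i, Finset.sum_comm]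
      refine Finset.sum_eq_zero fun l _ => ?_
      rw [← Finset.sum_mul, ← map_sum, hl l, map_zero, zero_mul]
    rcases mul_eq_zero.1 h2 with h3 | h3
    · rcases mul_eq_zero.1 h3 with h4 | h4
      · exact absurd h4 (pow_ne_zero _ hs.b0)
      · exact h4
    · exact absurd h3 (N5_e_ne hs _)

end Pool.Agent.Helper2.TA
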