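import Pool.Agent.Helper2.TA.Na

/-! # Project TA, block N: size of determinants -/

set_option autoImplicit false

open Polynomial

namespace Pool.Agent.Helper2.TA

/-- piece `TA-N6`: size of determinants (`Matrix.det_apply`, `l1_sum`, `l1_mul`, `l1_prod`) -/
theorem det_size {d n : ℕ} (w : Matrix (Fin d) (Fin d) ℤ[X]) {H : ℝ} (hH : 0 ≤ H)
    (hw : ∀ j l, (w j l).natDegree ≤ n ∧ l1 (w j l) ≤ H) :
    w.det.natDegree ≤ d * n ∧ l1 w.det ≤ d.factorial * H ^ d := by
  classical
  have hs : ∀ σ : Equiv.Perm (Fin d), (((Equiv.Perm.sign σ : ℤˣ) : ℤ) : ℤ[X]) =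
      C ((Equiv.Perm.sign σ : ℤˣ) : ℤ) := fun σ => (Polynomial.C_eq_intCast _).symm
  have hs1 : ∀ σ : Equiv.Perm (Fin d), |((((Equiv.Perm.sign σ : ℤˣ) : ℤ)) : ℝ)| = 1 := by
    intro σ
    rcases Int.units_eq_one_or (Equiv.Perm.sign σ) with h | h <;> rw [h] <;> norm_num
  constructor
  · rw [Matrix.det_apply']
    refine natDegree_sum_le_of_forall_le _ _ fun σ _ => ?_
    rw [hs]
    refine (natDegree_C_mul_le _ _).trans ((natDegree_prod_le _ _).trans ?_)
    refine (Finset.sum_le_sum fun i _ => (hw (σ i) i).1).trans ?_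
    rw [Finset.sum_const, Finset.card_univ, Fintype.card_fin, smul_eq_mul]
  · rw [Matrix.det_apply']
    refine (l1_sum _ _).trans ?_
    have h1 : ∀ σ ∈ (Finset.univ : Finset (Equiv.Perm (Fin d))),
        l1 ((((Equiv.Perm.sign σ : ℤˣ) : ℤ) : ℤ[X]) * ∏ i, w (σ i) i) ≤ H ^ d := by
      intro σ _
      refine (l1_mul _ _).trans ?_
      rw [hs, l1_C, hs1, one_mul]
      refine (l1_prod _ _).trans ?_
      refine (Finset.prod_le_prod (fun i _ => l1_nonneg _) fun i _ => (hw (σ i) i).2).trans ?_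
      rw [Finset.prod_const, Finset.card_univ, Fintype.card_fin]
    refine (Finset.sum_le_sum h1).trans ?_
    rw [Finset.sum_const, Finset.card_univ, Fintype.card_perm, Fintype.card_fin, nsmul_eq_mul]

/-- piece `TA-N6`: size of the adjugate (`Matrix.adjugate_apply`: determinant of `w` with one row
replaced by a unit vector; use `det_size` with `max 1 H`) -/
theorem adj_size {d n : ℕ} (w : Matrix (Fin d) (Fin d) ℤ[X]) {H : ℝ} (hH : 1 ≤ H)
    (hw : ∀ j l, (w j l).natDegree ≤ n ∧ l1 (w j l) ≤ H) (j l : Fin d) :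
    (w.adjugate j l).natDegree ≤ d * n ∧ l1 (w.adjugate j l) ≤ d.factorial * H ^ d := by
  classical
  rw [Matrix.adjugate_apply]
  refine det_size _ (zero_le_one.trans hH) fun a b => ?_
  have h0 : l1 (0 : ℤ[X]) ≤ H := by
    rw [← C_0, l1_C]
    simpa using zero_le_one.trans hH
  have h1 : l1 (1 : ℤ[X]) ≤ H := by
    rw [← C_1, l1_C]
    simpa using hH
  rw [Matrix.updateRow_apply]
  split_ifs with h
  · rw [Pi.single_apply]
    split_ifs
    · exact ⟨by rw [natDegree_one]; exact Nat.zero_le _, h1⟩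
    · exact ⟨by rw [natDegree_zero]; exact Nat.zero_le _, h0⟩
  · exact hw a b

end Pool.Agent.Helper2.TA
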