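import Pool.Agent.Helper2.TA.Na

/-! # Project TA, block N: determinants of multiplications -/

set_option autoImplicit false

open Polynomial

namespace Pool.Agent.Helper2.TA

/-- piece `TA-N7`: the determinant of the multiplication by `x ≠ 0`.
Proof. `det w = 0` gives `v ≠ 0` with `v ᵥ* w = 0` (`Matrix.exists_vecMul_eq_zero_iff`), so
`x (∑ j, v_j(β) e_j) = ∑ l, (v ᵥ* w)_l(β) e_l = 0`, `∑ v_j(β) e_j = 0`, `v = 0` by `ind`. -/
theorem det_ne {β : ℂ} {ϖ : Fin 4 → ℂ} {d : ℕ} {e : Fin d → ℂ} {b : ℤ[X]}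
    {M : Fin 4 → Matrix (Fin d) (Fin d) ℤ[X]} (hs : Str β ϖ d e b M)
    (w : Matrix (Fin d) (Fin d) ℤ[X]) {x : ℂ} (hx : x ≠ 0)
    (h : ∀ j, x * e j = ∑ l, aeval β (w j l) * e l) : w.det ≠ 0 := by
  intro hdet
  obtain ⟨v, hv, hvw⟩ := Matrix.exists_vecMul_eq_zero_iff.2 hdet
  have h1 : x * ∑ j, aeval β (v j) * e j = 0 := by
    have h2 : x * ∑ j, aeval β (v j) * e j =
        ∑ l, aeval β (Matrix.vecMul v w l) * e l := by
      calc x * ∑ j, aeval β (v j) * e j = ∑ j, aeval β (v j) * (x * e j) := by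
            rw [Finset.mul_sum]
            exact Finset.sum_congr rfl fun j _ => by ring
        _ = ∑ j, ∑ l, aeval β (v j) * (aeval β (w j l) * e l) := by
            refine Finset.sum_congr rfl fun j _ => ?_
            rw [h j, Finset.mul_sum]
        _ = ∑ l, ∑ j, aeval β (v j) * (aeval β (w j l) * e l) := Finset.sum_comm
        _ = ∑ l, aeval β (Matrix.vecMul v w l) * e l := by
            refine Finset.sum_congr rfl fun l _ => ?_
            rw [Matrix.vecMul, dotProduct, map_sum, Finset.sum_mul]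
            refine Finset.sum_congr rfl fun j _ => ?_
            rw [map_mul]
            ring
    rw [h2, hvw]
    simp
  have h3 : ∑ j, aeval β (v j) * e j = 0 := (mul_eq_zero.1 h1).resolve_left hx
  exact hv (funext fun j => hs.ind v h3 j)

/-- piece `TA-N7`.
Proof. For every `j`: `∑ j', (adj w)_{0 j'}(β) (x e_j') = ∑ l (adj w * w)_{0 l}(β) e_l = det w (β) e_0`
(`Matrix.adjugate_mul`), so `‖det w (β)‖ ‖e_0‖ ≤ ‖x‖ ∑ j', ‖(adj w)_{0 j'}(β)‖ ‖e_j'‖`. -/
theorem det_le {β : ℂ} {d : ℕ} {e : Fin d → ℂ} (w : Matrix (Fin d) (Fin d) ℤ[X]) {x : ℂ}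
    (h : ∀ j, x * e j = ∑ l, aeval β (w j l) * e l) (j₀ : Fin d) :
    ‖aeval β w.det‖ * ‖e j₀‖ ≤ ‖x‖ * ∑ j, ‖aeval β (w.adjugate j₀ j)‖ * ‖e j‖ := by
  have h1 : aeval β w.det * e j₀ = x * ∑ j, aeval β (w.adjugate j₀ j) * e j := by
    calc aeval β w.det * e j₀ = ∑ l, aeval β ((w.adjugate * w) j₀ l) * e l := by
          rw [Matrix.adjugate_mul, Finset.sum_eq_single j₀]
          · rw [Matrix.smul_apply, Matrix.one_apply_eq, smul_eq_mul, mul_one]
          · intro l _ hl
            rw [Matrix.smul_apply, Matrix.one_apply_ne (Ne.symm hl), smul_zero, map_zero, zero_mul]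
          · intro h2
            exact absurd (Finset.mem_univ _) h2
      _ = ∑ l, ∑ j, aeval β (w.adjugate j₀ j) * (aeval β (w j l) * e l) := by
          refine Finset.sum_congr rfl fun l _ => ?_
          rw [Matrix.mul_apply, map_sum, Finset.sum_mul]
          refine Finset.sum_congr rfl fun j _ => ?_
          rw [map_mul]
          ring
      _ = ∑ j, ∑ l, aeval β (w.adjugate j₀ j) * (aeval β (w j l) * e l) := Finset.sum_comm
      _ = ∑ j, aeval β (w.adjugate j₀ j) * (x * e j) := by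
          refine Finset.sum_congr rfl fun j _ => ?_
          rw [h j, Finset.mul_sum]
      _ = x * ∑ j, aeval β (w.adjugate j₀ j) * e j := by
          rw [Finset.mul_sum]
          exact Finset.sum_congr rfl fun j _ => by ring
  rw [← norm_mul, h1, norm_mul]
  refine mul_le_mul_of_nonneg_left ?_ (norm_nonneg _)
  refine (norm_sum_le _ _).trans (le_of_eq ?_)
  exact Finset.sum_congr rfl fun j _ => norm_mul _ _

end Pool.Agent.Helper2.TA
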