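import Pool.Agent.Helper2.TA.N2
import Pool.Agent.Helper2.TA.N3
import Pool.Agent.Helper2.TA.N6
import Pool.Agent.Helper2.TA.N7

/-! # Project TA, block N: norms -/

set_option autoImplicit false

open Polynomial

namespace Pool.Agent.Helper2.TA

open Pool.Agent.Helper49.TA (ln)

private theorem n8_pow (t : ℝ) (ht : 1 ≤ t) (n : ℕ) (c S : ℝ) (h : (n : ℝ) ≤ c * S) :
    t ^ n ≤ Real.exp (c * Real.log t * S) := by
  have h0 : 0 < t := by linarith
  have h1 : 0 ≤ Real.log t := Real.log_nonneg ht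
  rw [← Real.rpow_natCast, Real.rpow_def_of_pos h0]
  apply Real.exp_le_exp.2
  nlinarith

private theorem n8_const (t : ℝ) (ht : 1 ≤ t) (S : ℝ) (hS : 1 ≤ S) :
    t ≤ Real.exp (Real.log t * S) := by
  have h0 : 0 < t := by linarith
  have h1 : 0 ≤ Real.log t := Real.log_nonneg ht
  calc t = Real.exp (Real.log t) := (Real.exp_log h0).symm
    _ ≤ _ := Real.exp_le_exp.2 (by nlinarith)

/-- piece `TA-N8`.
Proof. `Str`, `B`, `D = ⌈S⌉₊ ≤ 2 S`, `A i` = matrix of `a i` in level `D`, `w = ∑ i, p i • A i`,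
`x = aeval β b ^ D * (∑ i, aeval β (p i) * aeval ϖ (a i)) ≠ 0`: `x e_j = ∑ l, w_{jl}(β) e_l`. Sizes: degree
`≤ D + B D` (`natDegree (p i) ≤ D`), `l1 (w j l) ≤ N * ((D + 1) exp S) * (exp S * B ^ D) =: H ≤ exp (C' S)`
(`l1_le`, `l1_mul`, `l1_sum`). `Q = det w`: `Q ≠ 0` (`det_ne`), `det_size`, `l1_coeff`. Last estimate: `det_le` with
`j₀ = ⟨0, hs.pos⟩`, `e j₀ ≠ 0` (`hs.ind`), `adj_size`, `norm_aeval_le`, `‖x‖ = ‖aeval β b‖ ^ D * ‖∑ ..‖ ≤
exp (C'' S) ‖∑ ..‖`. All constants depend only on `β`, `e`, `b`, `B`, `d`. -/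
theorem N_norm {β : ℂ} (hβ : Transcendental ℚ β) {ϖ : Fin 4 → ℂ}
    (hϖ : ∀ i, IsAlgebraic (IntermediateField.adjoin ℚ {β}) (ϖ i)) : ∃ C : ℝ, 1 ≤ C ∧
    ∀ (N : ℕ) (S : ℝ) (p : Fin N → ℤ[X]) (a : Fin N → MvPolynomial (Fin 4) ℤ), 1 ≤ N →
      1 ≤ S → Real.log N ≤ S → (∀ i, ((p i).natDegree : ℝ) ≤ S) →
      (∀ i j, |((p i).coeff j : ℝ)| ≤ Real.exp S) → (∀ i, ((a i).totalDegree : ℝ) ≤ S) →
      (∀ i, ln (a i) ≤ Real.exp S) → ∑ i, aeval β (p i) * MvPolynomial.aeval ϖ (a i) ≠ 0 →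
      ∃ Q : ℤ[X], Q ≠ 0 ∧ (Q.natDegree : ℝ) ≤ C * S ∧
        (∀ j, |(Q.coeff j : ℝ)| ≤ Real.exp (C * S)) ∧
        ‖aeval β Q‖ ≤ ‖∑ i, aeval β (p i) * MvPolynomial.aeval ϖ (a i)‖ * Real.exp (C * S) := by
  classical
  obtain ⟨d, e, b, M, hs⟩ := exists_str hβ hϖ
  obtain ⟨B, hB1, hrep⟩ := exists_rep hs
  obtain ⟨j₀, -⟩ : ∃ j₀ : Fin d, j₀ = ⟨0, hs.pos⟩ := ⟨_, rfl⟩
  have he0 : e j₀ ≠ 0 := by
    intro h0
    have h1 := hs.ind (fun l => if l = j₀ then 1 else 0) (by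
      refine Finset.sum_eq_zero fun l _ => ?_
      by_cases hl : l = j₀
      · rw [hl, h0, mul_zero]
      · rw [if_neg hl, map_zero, zero_mul]) j₀
    simp at h1
  have hE0 : 0 < ‖e j₀‖ := norm_pos_iff.2 he0
  obtain ⟨ES, hES⟩ : ∃ ES : ℝ, ES = ∑ j, ‖e j‖ := ⟨_, rfl⟩
  have hES0 : 0 ≤ ES := by
    rw [hES]
    exact Finset.sum_nonneg fun j _ => norm_nonneg _
  have hB : (1 : ℝ) ≤ B := by exact_mod_cast hB1
  have ht : (1 : ℝ) ≤ max 1 ‖β‖ := le_max_left _ _
  have hbb : (1 : ℝ) ≤ max 1 ‖aeval β b‖ := le_max_left _ _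
  have hq : (1 : ℝ) ≤ max 1 (ES / ‖e j₀‖) := le_max_left _ _
  have hF : (1 : ℝ) ≤ (d.factorial : ℝ) := by exact_mod_cast Nat.factorial_pos d
  have k1 := Real.log_nonneg hbb
  have k2 := Real.log_nonneg ht
  have k3 := Real.log_nonneg hq
  have k4 := Real.log_nonneg hB
  have k5 := Real.log_nonneg hF
  have hd0 : (0 : ℝ) ≤ d := Nat.cast_nonneg d
  have c1 : 0 ≤ 2 * (d : ℝ) * (1 + B) := by positivity
  have c2 : 0 ≤ Real.log (d.factorial : ℝ) + d * (5 + 2 * Real.log B) := by positivity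
  have c3 : 0 ≤ 2 * (d : ℝ) * (1 + B) * Real.log (max 1 ‖β‖) := by positivity
  refine ⟨1 + 2 * d * (1 + B) + (Real.log (d.factorial : ℝ) + d * (5 + 2 * Real.log B)) +
    2 * Real.log (max 1 ‖aeval β b‖) + 2 * d * (1 + B) * Real.log (max 1 ‖β‖) +
    Real.log (max 1 (ES / ‖e j₀‖)), by linarith, ?_⟩
  intro N S p a hN hS hlog hp hpc ha hln hne
  have hN' : (1 : ℝ) ≤ N := by exact_mod_cast hN
  obtain ⟨D, hD⟩ : ∃ D : ℕ, D = ⌈S⌉₊ := ⟨_, rfl⟩
  have hD1 : S ≤ D := by rw [hD]; exact Nat.le_ceil S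
  have hD2 : (D : ℝ) ≤ 2 * S := by
    have := Nat.ceil_lt_add_one (show 0 ≤ S by linarith)
    rw [hD]
    linarith
  have hpD : ∀ i, (p i).natDegree ≤ D := fun i => by exact_mod_cast (hp i).trans hD1
  have haD : ∀ i, (a i).totalDegree ≤ D := fun i => by exact_mod_cast (ha i).trans hD1
  choose A hA using fun i => hrep D (a i) (haD i)
  obtain ⟨w, hw0⟩ : ∃ w : Matrix (Fin d) (Fin d) ℤ[X], ∀ j l, w j l = ∑ i, p i * A i j l :=
    ⟨fun j l => ∑ i, p i * A i j l, fun _ _ => rfl⟩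
  have hx : aeval β b ^ D * ∑ i, aeval β (p i) * MvPolynomial.aeval ϖ (a i) ≠ 0 :=
    mul_ne_zero (pow_ne_zero _ hs.b0) hne
  have hw : ∀ j, (aeval β b ^ D * ∑ i, aeval β (p i) * MvPolynomial.aeval ϖ (a i)) * e j =
      ∑ l, aeval β (w j l) * e l := by
    intro j
    have h1 : ∀ l, aeval β (w j l) * e l =
        ∑ i, aeval β (p i) * (aeval β (A i j l) * e l) := by
      intro l
      rw [hw0, map_sum, Finset.sum_mul]
      refine Finset.sum_congr rfl fun i _ => ?_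
      rw [map_mul, mul_assoc]
    rw [Finset.sum_congr rfl fun l _ => h1 l, Finset.sum_comm, Finset.mul_sum, Finset.sum_mul]
    refine Finset.sum_congr rfl fun i _ => ?_
    rw [← Finset.mul_sum, ← (hA i).1 j]
    ring
  have hBD : (1 : ℝ) ≤ (B : ℝ) ^ D := one_le_pow₀ hB
  have hexp : (1 : ℝ) ≤ Real.exp S := Real.one_le_exp (by linarith)
  have hD0 : (0 : ℝ) ≤ D := Nat.cast_nonneg D
  obtain ⟨H, hH⟩ : ∃ H : ℝ, H = N * ((D + 1) * Real.exp S * (Real.exp S * (B : ℝ) ^ D)) :=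
    ⟨_, rfl⟩
  have hsz : ∀ j l, (w j l).natDegree ≤ D + B * D ∧ l1 (w j l) ≤ H := by
    intro j l
    rw [hw0]
    constructor
    · refine natDegree_sum_le_of_forall_le _ _ fun i _ => ?_
      exact natDegree_mul_le.trans (add_le_add (hpD i) ((hA i).2 j l).1)
    · refine (l1_sum _ _).trans ?_
      have h2 : ∀ i ∈ Finset.univ, l1 (p i * A i j l) ≤
          (D + 1) * Real.exp S * (Real.exp S * (B : ℝ) ^ D) := by
        intro i _
        refine (l1_mul _ _).trans ?_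
        refine mul_le_mul (l1_le (hpD i) (hpc i)) ?_ (l1_nonneg _) (by positivity)
        exact ((hA i).2 j l).2.trans (mul_le_mul_of_nonneg_right (hln i) (by positivity))
      refine (Finset.sum_le_sum h2).trans ?_
      rw [Finset.sum_const, Finset.card_univ, Fintype.card_fin, nsmul_eq_mul, hH]
  have hH1 : 1 ≤ H := by
    rw [hH]
    refine one_le_mul_of_one_le_of_one_le hN' ?_
    refine one_le_mul_of_one_le_of_one_le ?_ ?_
    · exact one_le_mul_of_one_le_of_one_le (by linarith) hexp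
    · exact one_le_mul_of_one_le_of_one_le hexp hBD
  have hHe : H ≤ Real.exp ((5 + 2 * Real.log B) * S) := by
    have e1 : (N : ℝ) ≤ Real.exp S := by
      calc (N : ℝ) = Real.exp (Real.log N) := (Real.exp_log (by linarith)).symm
        _ ≤ _ := Real.exp_le_exp.2 hlog
    have e2 : (D : ℝ) + 1 ≤ Real.exp (2 * S) :=
      (Real.add_one_le_exp (D : ℝ)).trans (Real.exp_le_exp.2 hD2)
    have e3 : (B : ℝ) ^ D ≤ Real.exp (2 * Real.log B * S) := n8_pow B hB D 2 S hD2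
    have e4 : Real.exp ((5 + 2 * Real.log B) * S) = Real.exp S * ((Real.exp (2 * S) *
        Real.exp S) * (Real.exp S * Real.exp (2 * Real.log B * S))) := by
      rw [← Real.exp_add, ← Real.exp_add, ← Real.exp_add, ← Real.exp_add]
      congr 1
      ring
    rw [e4, hH]
    gcongr
  have hHd : (d.factorial : ℝ) * H ^ d ≤
      Real.exp ((Real.log (d.factorial : ℝ) + d * (5 + 2 * Real.log B)) * S) := by
    have e1 : H ^ d ≤ Real.exp (d * (5 + 2 * Real.log B) * S) := by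
      calc H ^ d ≤ Real.exp ((5 + 2 * Real.log B) * S) ^ d :=
            pow_le_pow_left₀ (by linarith) hHe d
        _ = _ := by
          rw [← Real.exp_nat_mul]
          congr 1
          ring
    have e2 := n8_const (d.factorial : ℝ) hF S hS
    have e3 : Real.exp ((Real.log (d.factorial : ℝ) + d * (5 + 2 * Real.log B)) * S) =
        Real.exp (Real.log (d.factorial : ℝ) * S) *
          Real.exp (d * (5 + 2 * Real.log B) * S) := by
      rw [← Real.exp_add]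
      congr 1
      ring
    rw [e3]
    gcongr
  obtain ⟨q1, q2⟩ := det_size w (by linarith) hsz
  have q3 := fun j => adj_size w hH1 hsz j₀ j
  have hn : ((d * (D + B * D) : ℕ) : ℝ) ≤ 2 * d * (1 + B) * S := by
    push_cast
    have : (d : ℝ) * (D + B * D) = d * (1 + B) * D := by ring
    rw [this]
    calc (d : ℝ) * (1 + B) * D ≤ d * (1 + B) * (2 * S) :=
          mul_le_mul_of_nonneg_left hD2 (by positivity)
      _ = _ := by ring
  refine ⟨w.det, det_ne hs w hx hw, ?_, ?_, ?_⟩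
  · have h1 : (w.det.natDegree : ℝ) ≤ ((d * (D + B * D) : ℕ) : ℝ) := by exact_mod_cast q1
    refine (h1.trans hn).trans (mul_le_mul_of_nonneg_right ?_ (by linarith))
    linarith
  · intro j
    refine ((l1_coeff _ j).trans (q2.trans hHd)).trans ?_
    apply Real.exp_le_exp.2
    refine mul_le_mul_of_nonneg_right ?_ (by linarith)
    linarith
  · have h3 := det_le w hw j₀
    have h4 : ∀ j ∈ Finset.univ, ‖aeval β (w.adjugate j₀ j)‖ * ‖e j‖ ≤
        (Real.exp ((Real.log (d.factorial : ℝ) + d * (5 + 2 * Real.log B)) * S) *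
          Real.exp (2 * d * (1 + B) * Real.log (max 1 ‖β‖) * S)) * ‖e j‖ := by
      intro j _
      refine mul_le_mul_of_nonneg_right ?_ (norm_nonneg _)
      refine (norm_aeval_le _ β (q3 j).1).trans ?_
      exact mul_le_mul ((q3 j).2.trans hHd) (n8_pow _ ht _ _ S hn) (by positivity)
        (Real.exp_pos _).le
    have h5 := Finset.sum_le_sum h4
    rw [← Finset.mul_sum, ← hES] at h5
    have h6 : ‖aeval β b ^ D * ∑ i, aeval β (p i) * MvPolynomial.aeval ϖ (a i)‖ ≤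
        Real.exp (2 * Real.log (max 1 ‖aeval β b‖) * S) *
          ‖∑ i, aeval β (p i) * MvPolynomial.aeval ϖ (a i)‖ := by
      rw [norm_mul, norm_pow]
      refine mul_le_mul_of_nonneg_right ?_ (norm_nonneg _)
      exact (pow_le_pow_left₀ (norm_nonneg _) (le_max_right _ _) D).trans
        (n8_pow _ hbb D 2 S hD2)
    have h7 : ES / ‖e j₀‖ ≤ Real.exp (Real.log (max 1 (ES / ‖e j₀‖)) * S) :=
      (le_max_right _ _).trans (n8_const _ hq S hS)
    generalize ∑ i, aeval β (p i) * MvPolynomial.aeval ϖ (a i) = X at *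
    have h8 : ‖aeval β w.det‖ * ‖e j₀‖ ≤
        (Real.exp (2 * Real.log (max 1 ‖aeval β b‖) * S) * ‖X‖) *
        ((Real.exp ((Real.log (d.factorial : ℝ) + d * (5 + 2 * Real.log B)) * S) *
          Real.exp (2 * d * (1 + B) * Real.log (max 1 ‖β‖) * S)) * ES) :=
      h3.trans (mul_le_mul h6 h5 (Finset.sum_nonneg fun j _ => by positivity) (by positivity))
    rw [← le_div_iff₀ hE0] at h8
    refine h8.trans ?_
    have h9 : (Real.exp (2 * Real.log (max 1 ‖aeval β b‖) * S) * ‖X‖) *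
        ((Real.exp ((Real.log (d.factorial : ℝ) + d * (5 + 2 * Real.log B)) * S) *
          Real.exp (2 * d * (1 + B) * Real.log (max 1 ‖β‖) * S)) * ES) / ‖e j₀‖ =
        ‖X‖ * ((Real.exp (2 * Real.log (max 1 ‖aeval β b‖) * S) *
        (Real.exp ((Real.log (d.factorial : ℝ) + d * (5 + 2 * Real.log B)) * S) *
          Real.exp (2 * d * (1 + B) * Real.log (max 1 ‖β‖) * S))) * (ES / ‖e j₀‖)) := by ring
    rw [h9]
    refine mul_le_mul_of_nonneg_left ?_ (norm_nonneg _)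
    have h10 : (Real.exp (2 * Real.log (max 1 ‖aeval β b‖) * S) *
        (Real.exp ((Real.log (d.factorial : ℝ) + d * (5 + 2 * Real.log B)) * S) *
          Real.exp (2 * d * (1 + B) * Real.log (max 1 ‖β‖) * S))) * (ES / ‖e j₀‖) ≤
        (Real.exp (2 * Real.log (max 1 ‖aeval β b‖) * S) *
        (Real.exp ((Real.log (d.factorial : ℝ) + d * (5 + 2 * Real.log B)) * S) *
          Real.exp (2 * d * (1 + B) * Real.log (max 1 ‖β‖) * S))) *
          Real.exp (Real.log (max 1 (ES / ‖e j₀‖)) * S) :=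
      mul_le_mul_of_nonneg_left h7 (by positivity)
    refine h10.trans ?_
    rw [← Real.exp_add, ← Real.exp_add, ← Real.exp_add]
    apply Real.exp_le_exp.2
    have h11 : 0 ≤ (1 + 2 * (d : ℝ) * (1 + B)) * S := by positivity
    nlinarith

end Pool.Agent.Helper2.TA
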