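import Mathlib
import Pool.Agent.Helper49.TA.Df
import Pool.Agent.Helper14.LC.Nm

/-!
# Project TA, block N: arithmetic over `ℤ[β]`

`β` transcendental, `ϖ 0, …, ϖ 3` algebraic over `ℚ(β)`. `Str`: a basis `e` of the field
`ℚ(β, ϖ)` over `ℚ(β)`, a common denominator `b` and the matrices `M i` of the multiplications
by `b ϖ i`.
-/

set_option autoImplicit false

open Polynomial

namespace Pool.Agent.Helper2.TA

/-- the length of a polynomial -/
noncomputable def l1 (P : ℤ[X]) : ℝ := ∑ i ∈ P.support, |(P.coeff i : ℝ)|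

structure Str (β : ℂ) (ϖ : Fin 4 → ℂ) (d : ℕ) (e : Fin d → ℂ) (b : ℤ[X])
    (M : Fin 4 → Matrix (Fin d) (Fin d) ℤ[X]) : Prop where
  pos : 0 < d
  b0 : aeval β b ≠ 0
  mul : ∀ i j, aeval β b * ϖ i * e j = ∑ l, aeval β (M i j l) * e l
  ind : ∀ c : Fin d → ℤ[X], ∑ l, aeval β (c l) * e l = 0 → ∀ l, c l = 0

/-! ### piece `TA-N1`: the length (Fin sums over the support; compare with the sum over
`range (natDegree + 1)`) -/

private theorem N1_nm : Pool.Agent.Helper14.LC.IsNm l1 :=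
  Pool.Agent.Helper14.LC.isNm_pN Pool.Agent.Helper14.LC.isNm_int

private theorem N1_eq (P : ℤ[X]) {n : ℕ} (hn : P.natDegree ≤ n) :
    l1 P = ∑ i ∈ Finset.range (n + 1), |(P.coeff i : ℝ)| := by
  unfold l1
  refine Finset.sum_subset (fun i hi => ?_) fun i _ hi => ?_
  · rw [Finset.mem_range]
    have := le_natDegree_of_mem_supp i hi
    omega
  · rw [notMem_support_iff.1 hi, Int.cast_zero, abs_zero]

theorem l1_nonneg (P : ℤ[X]) : 0 ≤ l1 P := N1_nm.nn P

theorem l1_coeff (P : ℤ[X]) (i : ℕ) : |(P.coeff i : ℝ)| ≤ l1 P :=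
  Pool.Agent.Helper14.LC.coeff_le_pN Pool.Agent.Helper14.LC.isNm_int P i

theorem l1_add (P Q : ℤ[X]) : l1 (P + Q) ≤ l1 P + l1 Q := N1_nm.add P Q

theorem l1_sum {ι : Type*} (s : Finset ι) (f : ι → ℤ[X]) : l1 (∑ i ∈ s, f i) ≤ ∑ i ∈ s, l1 (f i) := by
  classical
  induction s using Finset.induction_on with
  | empty => rw [Finset.sum_empty, Finset.sum_empty, N1_nm.zero]
  | insert a s ha ih =>
    rw [Finset.sum_insert ha, Finset.sum_insert ha]
    have := l1_add (f a) (∑ i ∈ s, f i)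
    linarith

/-- write `P * Q = ∑ i ∈ P.support, ∑ j ∈ Q.support, monomial (i + j) (..)` -/
theorem l1_mul (P Q : ℤ[X]) : l1 (P * Q) ≤ l1 P * l1 Q := N1_nm.mul P Q

theorem l1_C (a : ℤ) : l1 (C a) = |(a : ℝ)| :=
  Pool.Agent.Helper14.LC.pN_C Pool.Agent.Helper14.LC.isNm_int a

theorem l1_prod {ι : Type*} (s : Finset ι) (f : ι → ℤ[X]) :
    l1 (∏ i ∈ s, f i) ≤ ∏ i ∈ s, l1 (f i) := by
  classical
  induction s using Finset.induction_on with
  | empty =>
    rw [Finset.prod_empty, Finset.prod_empty]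
    exact N1_nm.one
  | insert a s ha ih =>
    rw [Finset.prod_insert ha, Finset.prod_insert ha]
    exact (l1_mul _ _).trans (mul_le_mul_of_nonneg_left ih (l1_nonneg _))

theorem l1_le {P : ℤ[X]} {n : ℕ} (hn : P.natDegree ≤ n) {B : ℝ} (hB : ∀ j, |(P.coeff j : ℝ)| ≤ B) :
    l1 P ≤ (n + 1) * B := by
  rw [N1_eq P hn]
  refine (Finset.sum_le_sum fun i _ => hB i).trans (le_of_eq ?_)
  rw [Finset.sum_const, Finset.card_range, nsmul_eq_mul]
  push_cast
  ring

theorem norm_aeval_le (P : ℤ[X]) (β : ℂ) {n : ℕ} (hn : P.natDegree ≤ n) :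
    ‖aeval β P‖ ≤ l1 P * max 1 ‖β‖ ^ n := by
  rw [N1_eq P hn, aeval_eq_sum_range' (Nat.lt_succ_of_le hn), Finset.sum_mul]
  refine (norm_sum_le _ _).trans (Finset.sum_le_sum fun i hi => ?_)
  rw [Finset.mem_range] at hi
  rw [zsmul_eq_mul, norm_mul, norm_pow, Complex.norm_intCast]
  refine mul_le_mul_of_nonneg_left ?_ (abs_nonneg _)
  exact (pow_le_pow_left₀ (norm_nonneg _) (le_max_right _ _) i).trans
    (pow_le_pow_right₀ (le_max_left _ _) (by omega))

end Pool.Agent.Helper2.TA
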